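import Pool.Agent.H563.TG.Mult

/-!
# A thin set of multipliers which serves all moduli and all residue classes

For every `r ≥ 3` and `4 / (3 r - 3) < η ≤ 1` there is a set `S` of positive integers with at most
`C (log x) ^ 2` elements up to `x` such that for every large modulus `q` and every reduced class `b` modulo `q`
at least `B log q` of the numbers `b + k q`, `k ∈ S`, `k ≤ q ^ η`, have at most `r` prime factors, all large.
In particular, for every large prime `p`, at least `B log p` of the `k ∈ S`, `k ≤ p ^ η`, are admissible for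
`p` and `2 k p + 1` has at most `r` prime factors.
-/

set_option autoImplicit false

namespace Pool.Agent.Results.MP_2f88e5_nt.ThinSetOfMultipliers

open Finset Filter
open Pool.Agent.H563.TG (AP GQ mem_GQ GQ_card hitM hupM hlowM univI)

/-- The `n` with at most `r` prime factors (counted with multiplicity), all larger than
`n ^ (1 / (3 r + 1))`. -/
def AlmostPrime (r : ℕ) : Set ℕ :=
  {n | n.primeFactorsList.length ≤ r ∧ ∀ p : ℕ, p.Prime → p ∣ n → (n : ℝ) ^ (1 / (3 * (r : ℝ) + 1)) < p}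

/-- `k` is admissible for `p`. -/
def Admissible (p k : ℕ) : Prop := 1 ≤ k ∧ k < 2 * (p + 1) ∧ ¬ p ∣ k

/-- **A thin set of multipliers for all moduli and all residue classes.** -/
theorem result (r : ℕ) (hr : 3 ≤ r) (η : ℝ) (hη : 4 / (3 * (r : ℝ) - 3) < η) (hη1 : η ≤ 1) (B : ℝ) :
    ∃ C : ℝ, 0 < C ∧ ∃ S : Set ℕ,
      (∀ x : ℕ, 2 ≤ x → ({k | k ∈ S ∧ k ≤ x}.ncard : ℝ) ≤ C * Real.log x ^ 2) ∧
      (∃ q₀ : ℕ, ∀ q b : ℕ, q₀ ≤ q → 1 ≤ b → b ≤ q → Nat.Coprime b q → ∃ H : Finset ℕ,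
        B * Real.log q ≤ H.card ∧
        ∀ k ∈ H, k ∈ S ∧ 1 ≤ k ∧ (k : ℝ) ≤ (q : ℝ) ^ η ∧ b + k * q ∈ AlmostPrime r) ∧
      ∃ p₀ : ℕ, ∀ p : ℕ, p₀ ≤ p → p.Prime → ∃ H : Finset ℕ,
        B * Real.log p ≤ H.card ∧
        ∀ k ∈ H, k ∈ S ∧ Admissible p k ∧ (k : ℝ) ≤ (p : ℝ) ^ η ∧ 2 * k * p + 1 ∈ AlmostPrime r := by
  classical
  have hr3 : (3 : ℝ) ≤ r := by exact_mod_cast hr
  have hr0 : (0 : ℝ) < 3 * r - 3 := by linarith
  obtain ⟨e, he⟩ : ∃ e : ℝ, e = (η - 4 / (3 * (r : ℝ) - 3)) / 3 := ⟨_, rfl⟩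
  have he0 : 0 < e := by rw [he]; linarith
  obtain ⟨θ, hθ⟩ : ∃ θ : ℝ, θ = 4 / (3 * (r : ℝ) - 3) + e := ⟨_, rfl⟩
  have hθ0 : 0 < θ := by
    rw [hθ]
    positivity
  obtain ⟨η₁, hη₁⟩ : ∃ η₁ : ℝ, η₁ = θ + e := ⟨_, rfl⟩
  have hηe : η = η₁ + e := by
    rw [hη₁, hθ, he]
    ring
  have hη₁0 : 0 < η₁ := by linarith
  obtain ⟨δ, hδ, m₁, hlow⟩ := hlowM r hr θ (by rw [hθ]; linarith)
  obtain ⟨K, hK, m₁', hup⟩ := hupM r
  obtain ⟨C, hC, S, hS1, hS2, m₂, hm₂⟩ := univI (θ := θ) (η := η₁) (W := 16) (δ := δ) (K := K) hθ0 (by linarith)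
    (by linarith) (by norm_num) hδ hK (hitM r) GQ (max m₁ m₁') (fun m _ => by
      have := GQ_card m
      exact this) (by
      intro m hm n hn1 hn2 N hN Q hQ
      refine hlow m ((le_max_left _ _).trans hm) n hn1 ?_ N hN Q hQ
      have h1 : (n : ℝ) ≤ m := by
        refine hn2.trans ?_
        have : (0 : ℝ) ≤ m := Nat.cast_nonneg _
        nlinarith
      exact_mod_cast h1) (by
      intro m hm q V hV hVq
      exact hup m ((le_max_right _ _).trans hm) q V hV hVq) (2 * (|B| + 1)) (by positivity)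
  -- all moduli
  have hmain : ∃ q₀ : ℕ, ∀ q b : ℕ, q₀ ≤ q → 1 ≤ b → b ≤ q → Nat.Coprime b q → ∃ H : Finset ℕ,
        (|B| + 1) * Real.log q ≤ H.card ∧
        ∀ k ∈ H, k ∈ S ∧ 1 ≤ k ∧ 2 * (k : ℝ) ≤ (4 * (q : ℝ)) ^ η₁ ∧ b + k * q ∈ AlmostPrime r := by
    refine ⟨4 ^ m₂, ?_⟩
    intro q b hq hb1 hb2 hcop
    have hq0 : 1 ≤ q := hb1.trans hb2
    obtain ⟨m, hm⟩ : ∃ m, m = Nat.log 4 (4 * q) := ⟨_, rfl⟩
    have e1 : 4 ^ m ≤ 4 * q := by
      rw [hm]
      exact Nat.pow_log_le_self 4 (by omega)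
    have e2 : 4 * q < 4 ^ (m + 1) := by
      rw [hm]
      exact Nat.lt_pow_succ_log_self (by norm_num) _
    have hmm₂ : m₂ < m := by
      by_contra hcon
      push Not at hcon
      have : 4 ^ (m + 1) ≤ 4 ^ (m₂ + 1) := Nat.pow_le_pow_right (by norm_num) (by omega)
      rw [pow_succ 4 m₂] at this
      omega
    have hN : Nat.pair q b ∈ GQ m := by
      rw [mem_GQ]
      refine ⟨⟨?_, ?_⟩, hb1, hb2, hcop⟩
      · have : 4 ^ m = 4 * 4 ^ (m - 1) := by
          rw [← pow_succ']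
          congr 1
          omega
        omega
      · rw [pow_succ] at e2
        omega
    obtain ⟨H, hH1, hH2⟩ := hm₂ m hmm₂.le _ hN
    have hqr : (1 : ℝ) ≤ q := by exact_mod_cast hq0
    refine ⟨H, ?_, ?_⟩
    · refine le_trans ?_ hH2
      have h1 : (q : ℝ) ≤ 4 ^ m := by
        have : q ≤ 4 ^ m := by
          rw [pow_succ] at e2
          omega
        exact_mod_cast this
      have h2 := Real.log_le_log (by linarith) h1
      rw [Real.log_pow] at h2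
      have hlog4 : Real.log 4 ≤ 2 := by
        rw [show (4 : ℝ) = 2 ^ 2 by norm_num, Real.log_pow]
        have := Real.log_two_lt_d9
        push_cast
        linarith
      have hm0 : (0 : ℝ) ≤ m := Nat.cast_nonneg _
      have h3 : Real.log q ≤ 2 * m := by nlinarith
      have hB : 0 ≤ |B| + 1 := by positivity
      calc (|B| + 1) * Real.log q ≤ (|B| + 1) * (2 * m) := mul_le_mul_of_nonneg_left h3 hB
        _ = 2 * (|B| + 1) * m := by ring
    · intro k hk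
      obtain ⟨g1, g2, g3, g4⟩ := hH1 k hk
      rw [Nat.unpair_pair] at g4
      refine ⟨g1, g3, g2.trans ?_, g4⟩
      have h1 : (4 : ℝ) ^ (m : ℝ) ≤ 4 * q := by
        rw [Real.rpow_natCast]
        exact_mod_cast e1
      calc (4 : ℝ) ^ (η₁ * m) = ((4 : ℝ) ^ (m : ℝ)) ^ η₁ := by
            rw [← Real.rpow_mul (by norm_num), mul_comm]
        _ ≤ (4 * (q : ℝ)) ^ η₁ := Real.rpow_le_rpow (by positivity) h1 hη₁0.le
  obtain ⟨q₀, hq₀⟩ := hmain
  have ev := (tendsto_rpow_atTop he0).eventually (eventually_gt_atTop (8 : ℝ))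
  obtain ⟨x₀, hx₀⟩ := eventually_atTop.1 ev
  -- the comparison of the powers
  have hcmp : ∀ q : ℕ, max ⌈x₀⌉₊ 1 ≤ q → (8 * (q : ℝ)) ^ η₁ < (q : ℝ) ^ η := by
    intro q hq
    have hq1 : (1 : ℝ) ≤ q := by exact_mod_cast (le_max_right _ _).trans hq
    have h1 := hx₀ q ((Nat.le_ceil _).trans (by exact_mod_cast (le_max_left _ _).trans hq))
    have h2 : (8 : ℝ) ^ η₁ ≤ 8 := by
      calc (8 : ℝ) ^ η₁ ≤ (8 : ℝ) ^ (1 : ℝ) := Real.rpow_le_rpow_of_exponent_le (by norm_num) (by linarith)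
        _ = 8 := Real.rpow_one _
    have h3 : 0 < (q : ℝ) ^ η₁ := Real.rpow_pos_of_pos (by linarith) _
    rw [Real.mul_rpow (by norm_num) (by linarith), hηe, Real.rpow_add (by linarith)]
    nlinarith
  have hBle : ∀ t : ℝ, 0 ≤ t → B * t ≤ (|B| + 1) * t := by
    intro t ht
    apply mul_le_mul_of_nonneg_right _ ht
    linarith [le_abs_self B]
  refine ⟨C, hC, S, hS2, ⟨max q₀ (max ⌈x₀⌉₊ 1), ?_⟩, ⟨max q₀ (max ⌈x₀⌉₊ 1), ?_⟩⟩
  · intro q b hq hb1 hb2 hcop
    obtain ⟨H, hH1, hH2⟩ := hq₀ q b ((le_max_left _ _).trans hq) hb1 hb2 hcop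
    have hq1 : (1 : ℝ) ≤ q := by exact_mod_cast hb1.trans hb2
    refine ⟨H, (hBle _ (Real.log_nonneg hq1)).trans hH1, ?_⟩
    intro k hk
    obtain ⟨g1, g2, g3, g4⟩ := hH2 k hk
    refine ⟨g1, g2, ?_, g4⟩
    have h1 := hcmp q ((le_max_right _ _).trans hq)
    have h2 : (4 * (q : ℝ)) ^ η₁ ≤ (8 * (q : ℝ)) ^ η₁ := Real.rpow_le_rpow (by positivity) (by linarith) hη₁0.le
    have h3 : (0 : ℝ) ≤ k := Nat.cast_nonneg _
    linarith
  · intro p hp hpp
    have hp1 : (1 : ℝ) ≤ p := by exact_mod_cast hpp.one_le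
    obtain ⟨H, hH1, hH2⟩ := hq₀ (2 * p) 1 (by
      have := (le_max_left _ _).trans hp
      omega) le_rfl (by have := hpp.one_le; omega) (Nat.coprime_one_left _)
    refine ⟨H, ?_, ?_⟩
    · refine (hBle _ (Real.log_nonneg hp1)).trans (le_trans ?_ hH1)
      have : Real.log p ≤ Real.log ((2 * p : ℕ) : ℝ) := by
        apply Real.log_le_log (by linarith)
        push_cast
        linarith
      exact mul_le_mul_of_nonneg_left this (by positivity)
    · intro k hk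
      obtain ⟨g1, g2, g3, g4⟩ := hH2 k hk
      have h1 := hcmp p ((le_max_right _ _).trans hp)
      push_cast at g3
      have h2 : 4 * (2 * (p : ℝ)) = 8 * p := by ring
      rw [h2] at g3
      have h3 : (0 : ℝ) ≤ k := Nat.cast_nonneg _
      have h4 : (k : ℝ) < (p : ℝ) ^ η := by linarith
      have h5 : (p : ℝ) ^ η ≤ p := by
        calc (p : ℝ) ^ η ≤ (p : ℝ) ^ (1 : ℝ) := Real.rpow_le_rpow_of_exponent_le hp1 hη1
          _ = p := Real.rpow_one _
      have h6 : k < p := by exact_mod_cast h4.trans_le h5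
      refine ⟨g1, ⟨g2, by omega, ?_⟩, h4.le, ?_⟩
      · intro hdvd
        have := Nat.le_of_dvd (by omega) hdvd
        omega
      · have e : 2 * k * p + 1 = 1 + k * (2 * p) := by ring
        rw [e]
        exact g4

end Pool.Agent.Results.MP_2f88e5_nt.ThinSetOfMultipliers
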